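import Mathlib
import Pool.Agent.X331.SF.FH

/-!
# A shift operator on `ℓ₁(ℤ; X)` which is frequently hypercyclic but not Devaney chaotic

The published question (MP_7d5718_an, Q1) asks whether, for every Banach space `X`, every
`1 ≤ p < ∞` and every uniformly bounded, uniformly invertible sequence `S = (S_n)_{n ∈ ℤ}` of
operators on `X`, the shift operator `σ_S (x_n)_n = (S_{n+1} x_{n+1})_n` on `ℓ_p(ℤ; X)` is Devaney
chaotic if and only if it is frequently hypercyclic.  We disprove this, with `X = ℓ₁(ℕ)` and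
`p = 1`: the operator constructed here is frequently hypercyclic, and all its periodic points lie
in one closed hyperplane.

Construction.  `S_n = T_{n-1} T_n⁻¹` with `T_j = 4^{-|j|} (I + (c_j - 1) f ⊗ w)`, where on the window
around a position `p_{g,i}` (`i < b_g`) the weight `c_j` increases to `4^p 2^g`, so that
`‖T_p v‖ ≥ |f_{g,i}(v)| - 3 · 4^{-p} ‖v‖`.  The functionals are `f_{g,i}(v) = 2^g v_{g,i}` for
`i < b_g - 1` and `f_{g,b_g-1}(v) = v_0/(g+1) - 2^g ∑_i v_{g,i}`, so `∑_i f_{g,i}(v) = v_0/(g+1)`, and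
`p_{g,i}` is divisible by `g!`: a periodic point `x` must satisfy `∑_g |(x_0)_0|/(g+1) < ∞`.  On the
other hand a vector `v` can be corrected by a small amount so that all `f_{g,i}`, `g ≥ G`, but one for
each `g` vanish.  The frequently hypercyclic vector is a sum of corrected blocks placed at the elements
`m` of a set of positive lower density described by the digits of `m` in the mixed radix system
`M_{g+1} = b_g M_g` (the three largest digits are forbidden in each place); since
`p_{g,i} ≡ i M_g mod M_{g+1}`, for each `m` and `g` some `m - p_{g,i}` is farther than `M_g` from all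
elements of the set, and the exceptional functional for `m` is chosen to be this one.
-/

set_option autoImplicit false

namespace Pool.Agent.Results.MP_7d5718_an.FrequentlyHypercyclicNotChaotic

open Filter Topology

/-- Lower density `liminf |A ∩ [0, N)| / N` of a set of natural numbers. -/
noncomputable def lowerDensity (A : Set ℕ) : ℝ :=
  liminf (fun N : ℕ => ((A ∩ Set.Iio N).ncard : ℝ) / N) atTop

/-- `T` is hypercyclic: some orbit is dense. -/
def Hypercyclic {E : Type} [NormedAddCommGroup E] [NormedSpace ℝ E] (T : E →L[ℝ] E) : Prop :=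
  ∃ x : E, Dense (Set.range fun n : ℕ => (T ^ n) x)

/-- `T` is Devaney chaotic: hypercyclic, with a dense set of periodic points. -/
def DevaneyChaotic {E : Type} [NormedAddCommGroup E] [NormedSpace ℝ E] (T : E →L[ℝ] E) : Prop :=
  Hypercyclic T ∧ Dense {x : E | ∃ k : ℕ, 1 ≤ k ∧ (T ^ k) x = x}

/-- `T` is frequently hypercyclic: for some `x`, the set `{n : T^n x ∈ U}` has positive lower
density for every non-empty open set `U`. -/
def FrequentlyHypercyclic {E : Type} [NormedAddCommGroup E] [NormedSpace ℝ E] (T : E →L[ℝ] E) :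
    Prop :=
  ∃ x : E, ∀ U : Set E, IsOpen U → U.Nonempty → 0 < lowerDensity {n : ℕ | (T ^ n) x ∈ U}

/-- All periodic points of `T` lie in one closed hyperplane: a non-zero continuous linear
functional vanishes at them. -/
def PeriodicInHyperplane {E : Type} [NormedAddCommGroup E] [NormedSpace ℝ E] (T : E →L[ℝ] E) :
    Prop :=
  ∃ φ : E →L[ℝ] ℝ, φ ≠ 0 ∧ ∀ (k : ℕ) (x : E), 1 ≤ k → (T ^ k) x = x → φ x = 0

/-- the space `ℓ₁(ℤ; X)` -/
def Ell (X : Type) [NormedAddCommGroup X] : Type := lp (fun _ : ℤ => X) 1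

noncomputable instance (X : Type) [NormedAddCommGroup X] : NormedAddCommGroup (Ell X) :=
  (inferInstance : NormedAddCommGroup (lp (fun _ : ℤ => X) 1))

noncomputable instance (X : Type) [NormedAddCommGroup X] [NormedSpace ℝ X] : NormedSpace ℝ (Ell X) :=
  (inferInstance : NormedSpace ℝ (lp (fun _ : ℤ => X) 1))

/-- the `n`-th term of a sequence `x ∈ ℓ₁(ℤ; X)` -/
def term {X : Type} [NormedAddCommGroup X] (x : Ell X) (n : ℤ) : X :=
  (show lp (fun _ : ℤ => X) 1 from x) n

/-- `σ` is the shift operator on `ℓ₁(ℤ; X)` generated by `S`: `(σ x)_n = S_{n+1} x_{n+1}`. -/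
def IsShiftOperator {X : Type} [NormedAddCommGroup X] (S : ℤ → X → X) (σ : Ell X → Ell X) : Prop :=
  ∀ (x : Ell X) (n : ℤ), term (σ x) n = S (n + 1) (term x (n + 1))

section
variable {X : Type} [NormedAddCommGroup X] [NormedSpace ℝ X]

/-- `sup_n max (‖S_n‖, ‖S_n⁻¹‖) < ∞` -/
def UniformlyInvertible (S : ℤ → X ≃L[ℝ] X) : Prop :=
  ∃ C : ℝ, ∀ n, ‖(S n : X →L[ℝ] X)‖ ≤ C ∧ ‖((S n).symm : X →L[ℝ] X)‖ ≤ C

/-- The shift operator on `ℓ₁(ℤ; X)` generated by `S` exists (as a bounded operator), is frequently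
hypercyclic, is not Devaney chaotic, and all its periodic points lie in one closed hyperplane. -/
def ShiftIsCounterexample (S : ℤ → X ≃L[ℝ] X) : Prop :=
  ∃ σ : Ell X →L[ℝ] Ell X, IsShiftOperator (fun n => S n) σ ∧ FrequentlyHypercyclic σ ∧
    ¬ DevaneyChaotic σ ∧ PeriodicInHyperplane σ

end

lemma lowerDensity_pos {A : Set ℕ} {C : ℝ} (hC : 0 < C) {N0 : ℕ}
    (h : ∀ N, N0 ≤ N → (N : ℝ) ≤ C * ((A ∩ Set.Iio N).ncard : ℝ)) : 0 < lowerDensity A := by
  have hle : ∀ N : ℕ, ((A ∩ Set.Iio N).ncard : ℝ) / N ≤ 1 := by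
    intro N
    apply div_le_one_of_le₀ _ (by positivity)
    have h1 : (A ∩ Set.Iio N).ncard ≤ (Set.Iio N).ncard :=
      Set.ncard_le_ncard Set.inter_subset_right (Set.finite_Iio N)
    have h2 : (Set.Iio N).ncard = N := by
      rw [← Finset.coe_range, Set.ncard_coe_finset, Finset.card_range]
    rw [h2] at h1
    exact_mod_cast h1
  have hb : IsCoboundedUnder (· ≥ ·) atTop fun N : ℕ => ((A ∩ Set.Iio N).ncard : ℝ) / N :=
    IsBoundedUnder.isCoboundedUnder_ge ⟨1, eventually_map.2 (Eventually.of_forall hle)⟩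
  have h1 : ∀ᶠ N : ℕ in atTop, 1 / C ≤ ((A ∩ Set.Iio N).ncard : ℝ) / N := by
    filter_upwards [eventually_ge_atTop N0, eventually_gt_atTop 0] with N hN hN0
    have hN' : (0 : ℝ) < N := by exact_mod_cast hN0
    rw [div_le_div_iff₀ hC hN', one_mul, mul_comm]
    exact h N hN
  have h2 := le_liminf_of_le hb h1
  exact lt_of_lt_of_le (by positivity) h2

/-- **Disproof of Q1.**  There are a Banach space `X` and a sequence `(S_n)_{n ∈ ℤ}` of invertible
operators on `X` with `sup_n max (‖S_n‖, ‖S_n⁻¹‖) < ∞` such that the shift operator on `ℓ₁(ℤ; X)`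
generated by it is frequently hypercyclic but not Devaney chaotic; moreover a non-zero continuous
linear functional vanishes at all its periodic points. -/
theorem result : ∃ (X : Type) (_ : NormedAddCommGroup X) (_ : NormedSpace ℝ X)
    (_ : CompleteSpace X) (S : ℤ → X ≃L[ℝ] X), UniformlyInvertible S ∧ ShiftIsCounterexample S := by
  have hφ : PeriodicInHyperplane (E := Ell X331.SF.X) X331.SF.sh := by
    refine ⟨(X331.SF.ev 0).comp (X331.SF.ev 0), ?_, ?_⟩
    · intro h
      have h1 : ((X331.SF.ev 0).comp (X331.SF.ev 0) : lp (fun _ : ℤ => X331.SF.X) 1 →L[ℝ] ℝ)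
          (X331.SF.sg 0 (X331.SF.e 0)) = 0 :=
        DFunLike.congr_fun h (X331.SF.sg 0 (X331.SF.e 0) : X331.SF.Z)
      have h2 : ((X331.SF.ev 0).comp (X331.SF.ev 0) : lp (fun _ : ℤ => X331.SF.X) 1 →L[ℝ] ℝ)
          (X331.SF.sg 0 (X331.SF.e 0)) = 1 := by
        have h3 : ((X331.SF.sg 0 (X331.SF.e 0) : X331.SF.Z) 0) = X331.SF.e 0 := by
          rw [X331.SF.sg_apply, if_pos rfl]
        have h4 : (X331.SF.e 0) 0 = (1 : ℝ) := by rw [X331.SF.e_apply, if_pos rfl]
        exact (congrArg (fun v : X331.SF.X => v 0) h3).trans h4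
      rw [h1] at h2
      exact zero_ne_one h2
    · intro k x hk hx
      exact X331.SF.per_zero hk hx
  refine ⟨X331.SF.X, inferInstance, inferInstance, inferInstance, X331.SF.S,
    ⟨124, fun n => ⟨X331.SF.S_norm n, X331.SF.S_symm_norm n⟩⟩, X331.SF.sh, fun x n => rfl, ?_, ?_, hφ⟩
  · obtain ⟨x, hx⟩ := X331.SF.exists_fh
    refine ⟨x, fun U hU hne => ?_⟩
    obtain ⟨C, hC, N0, hN⟩ := hx U hU hne
    exact lowerDensity_pos hC hN
  · rintro ⟨-, hd⟩
    obtain ⟨φ, hφ0, hφ1⟩ := hφ
    apply hφ0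
    ext x
    have hcl : IsClosed {x : lp (fun _ : ℤ => X331.SF.X) 1 | φ x = 0} :=
      isClosed_eq φ.continuous continuous_const
    have hsub : {x : lp (fun _ : ℤ => X331.SF.X) 1 | ∃ k : ℕ, 1 ≤ k ∧ (X331.SF.sh ^ k) x = x} ⊆
        {x | φ x = 0} := by
      rintro y ⟨k, hk, hy⟩
      exact hφ1 k y hk hy
    exact (closure_minimal hsub hcl) (hd x)

end Pool.Agent.Results.MP_7d5718_an.FrequentlyHypercyclicNotChaotic
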